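import Mathlib

/-! The up operator of the Boolean lattice: lower bound below the middle level, and the inversion bound for the
weighted incidence map (used at the end of the sticky Kakeya proof). -/

namespace Pool.Agent.Helper59.HK

open Finset

/-- up operator -/
def upB {α : Type} [DecidableEq α] (g : Finset α → ℝ) (S : Finset α) : ℝ := ∑ l ∈ S, g (S.erase l)

/-- down operator -/
def dnB {α : Type} [DecidableEq α] [Fintype α] (g : Finset α → ℝ) (T : Finset α) : ℝ :=
  ∑ l ∈ Tᶜ, g (insert l T)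

lemma sum_erase_insert {α : Type} [DecidableEq α] [Fintype α] (g h : Finset α → ℝ) (l : α) :
    ∑ S : Finset α, (if l ∈ S then g (S.erase l) * h S else 0) =
      ∑ T : Finset α, (if l ∈ T then 0 else g T * h (insert l T)) := by
  have h1 : ∑ S : Finset α, (if l ∈ S then g (S.erase l) * h S else 0) =
      ∑ S ∈ (univ : Finset (Finset α)).filter (fun S => l ∈ S), g (S.erase l) * h S := by
    rw [Finset.sum_filter]
  have h2 : ∑ T : Finset α, (if l ∈ T then 0 else g T * h (insert l T)) =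
      ∑ T ∈ (univ : Finset (Finset α)).filter (fun T => l ∉ T), g T * h (insert l T) := by
    rw [Finset.sum_filter]
    refine Finset.sum_congr rfl fun T _ => ?_
    by_cases hl : l ∈ T
    · simp [hl]
    · simp [hl]
  rw [h1, h2]
  refine Finset.sum_nbij' (fun S => S.erase l) (fun T => insert l T) ?_ ?_ ?_ ?_ ?_
  · intro S hS
    simp
  · intro T hT
    simp
  · intro S hS
    have hS' : l ∈ S := by simpa using hS
    exact Finset.insert_erase hS'
  · intro T hT
    have hT' : l ∉ T := by simpa using hT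
    exact Finset.erase_insert hT'
  · intro S hS
    have hS' : l ∈ S := by simpa using hS
    have := Finset.insert_erase hS'
    simp only [this]

lemma upB_adj {α : Type} [DecidableEq α] [Fintype α] (g h : Finset α → ℝ) :
    ∑ S : Finset α, upB g S * h S = ∑ T : Finset α, g T * dnB h T := by
  have h1 : ∑ S : Finset α, upB g S * h S =
      ∑ S : Finset α, ∑ l : α, (if l ∈ S then g (S.erase l) * h S else 0) := by
    refine Finset.sum_congr rfl fun S _ => ?_
    rw [upB, Finset.sum_mul, ← Finset.sum_filter]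
    refine Finset.sum_congr ?_ fun _ _ => rfl
    ext l
    simp
  have h2 : ∑ T : Finset α, g T * dnB h T =
      ∑ T : Finset α, ∑ l : α, (if l ∈ T then 0 else g T * h (insert l T)) := by
    refine Finset.sum_congr rfl fun T _ => ?_
    rw [dnB, Finset.mul_sum]
    have h3 : ∑ l : α, (if l ∈ T then 0 else g T * h (insert l T)) =
        ∑ l : α, (if l ∉ T then g T * h (insert l T) else 0) := by
      refine Finset.sum_congr rfl fun l _ => ?_
      by_cases hl : l ∈ T
      · simp [hl]
      · simp [hl]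
    rw [h3, ← Finset.sum_filter]
    refine Finset.sum_congr ?_ fun _ _ => rfl
    ext l
    simp
  rw [h1, h2, Finset.sum_comm]
  rw [Finset.sum_comm (s := (univ : Finset (Finset α))) (t := (univ : Finset α))
    (f := fun T l => if l ∈ T then 0 else g T * h (insert l T))]
  exact Finset.sum_congr rfl fun l _ => sum_erase_insert g h l

lemma dn_up {α : Type} [DecidableEq α] [Fintype α] (g : Finset α → ℝ) (T : Finset α) :
    dnB (upB g) T = upB (dnB g) T + ((Fintype.card α : ℝ) - 2 * T.card) * g T := by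
  have h1 : ∀ l ∈ Tᶜ, upB g (insert l T) = g T + ∑ l' ∈ T, g (insert l (T.erase l')) := by
    intro l hl
    have hl' : l ∉ T := by simpa using hl
    rw [upB, Finset.sum_insert hl', Finset.erase_insert hl']
    congr 1
    refine Finset.sum_congr rfl fun l' hl2 => ?_
    have hne : l ≠ l' := fun h => hl' (h ▸ hl2)
    rw [Finset.erase_insert_of_ne hne]
  have h2 : ∀ l' ∈ T, dnB g (T.erase l') = g T + ∑ l ∈ Tᶜ, g (insert l (T.erase l')) := by
    intro l' hl'
    have hc : (T.erase l')ᶜ = insert l' Tᶜ := by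
      rw [Finset.compl_erase]
    have hn : l' ∉ Tᶜ := by simpa using hl'
    rw [dnB, hc, Finset.sum_insert hn, Finset.insert_erase hl']
  have h3 : dnB (upB g) T = ((Tᶜ).card : ℝ) * g T + ∑ l ∈ Tᶜ, ∑ l' ∈ T, g (insert l (T.erase l')) := by
    rw [dnB, Finset.sum_congr rfl h1, Finset.sum_add_distrib, Finset.sum_const, nsmul_eq_mul]
  have h4 : upB (dnB g) T = (T.card : ℝ) * g T + ∑ l' ∈ T, ∑ l ∈ Tᶜ, g (insert l (T.erase l')) := by
    rw [upB, Finset.sum_congr rfl h2, Finset.sum_add_distrib, Finset.sum_const, nsmul_eq_mul]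
  have h5 : ((Tᶜ).card : ℝ) = (Fintype.card α : ℝ) - T.card := by
    rw [Finset.card_compl, Nat.cast_sub (Finset.card_le_univ T)]
  rw [h3, h4, h5, Finset.sum_comm]
  ring

/-- below the middle level the up operator expands -/
lemma upB_lower {α : Type} [DecidableEq α] [Fintype α] (g : Finset α → ℝ) (i : ℕ)
    (hi : 2 * i + 1 ≤ Fintype.card α) (hg : ∀ T : Finset α, T.card ≠ i → g T = 0) :
    ∑ T : Finset α, g T ^ 2 ≤ ∑ S : Finset α, upB g S ^ 2 := by
  have h1 : ∑ S : Finset α, upB g S ^ 2 = ∑ T : Finset α, g T * dnB (upB g) T := by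
    rw [← upB_adj]
    exact Finset.sum_congr rfl fun S _ => by ring
  have h2 : ∑ T : Finset α, g T * upB (dnB g) T = ∑ T : Finset α, dnB g T ^ 2 := by
    have := upB_adj (dnB g) g
    have h3 : ∑ T : Finset α, g T * upB (dnB g) T = ∑ S : Finset α, upB (dnB g) S * g S :=
      Finset.sum_congr rfl fun S _ => by ring
    rw [h3, this]
    exact Finset.sum_congr rfl fun S _ => by ring
  have h3 : ∑ T : Finset α, g T * dnB (upB g) T =
      ∑ T : Finset α, g T * upB (dnB g) T +
        ∑ T : Finset α, ((Fintype.card α : ℝ) - 2 * T.card) * g T ^ 2 := by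
    rw [← Finset.sum_add_distrib]
    refine Finset.sum_congr rfl fun T _ => ?_
    rw [dn_up]
    ring
  have h4 : ∑ T : Finset α, g T ^ 2 ≤
      ∑ T : Finset α, ((Fintype.card α : ℝ) - 2 * T.card) * g T ^ 2 := by
    refine Finset.sum_le_sum fun T _ => ?_
    by_cases hT : T.card = i
    · have h5 : (2 * (i : ℝ) + 1) ≤ (Fintype.card α : ℝ) := by exact_mod_cast hi
      rw [hT]
      nlinarith [sq_nonneg (g T)]
    · rw [hg T hT]
      simp
  rw [h1, h3, h2]
  have h5 : 0 ≤ ∑ T : Finset α, dnB g T ^ 2 := Finset.sum_nonneg fun _ _ => sq_nonneg _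
  linarith

/-- inversion bound: `ζ` of level `i` is controlled by the sums `∑ l ∈ S, p l * ζ (S.erase l)`, `|S| = i + 1` -/
theorem bool_inv {α : Type} [DecidableEq α] [Fintype α] (i : ℕ) (hi : 2 * i + 1 ≤ Fintype.card α)
    (p : α → ℝ) (lo up C : ℝ) (hlo : 0 < lo) (hp : ∀ l, lo ≤ |p l| ∧ |p l| ≤ up) (hC : 0 ≤ C)
    (ζ : Finset α → ℝ)
    (hζ : ∀ S : Finset α, S.card = i + 1 → |∑ l ∈ S, p l * ζ (S.erase l)| ≤ C)
    (T : Finset α) (hT : T.card = i) :
    |ζ T| ≤ 2 ^ (Fintype.card α) * C * up ^ i / lo ^ (i + 1) := by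
  have hp0 : ∀ l, p l ≠ 0 := fun l h => by
    have := (hp l).1
    rw [h, abs_zero] at this
    linarith
  have hup : 0 ≤ up := by
    rcases (Fintype.card_pos_iff.mp (by omega : 0 < Fintype.card α)) with ⟨l⟩
    exact le_trans (abs_nonneg _) (hp l).2
  have hP : ∀ S : Finset α, (∏ l ∈ S, p l) ≠ 0 := fun S => Finset.prod_ne_zero_iff.mpr fun l _ => hp0 l
  have hPlo : ∀ S : Finset α, lo ^ S.card ≤ |∏ l ∈ S, p l| := fun S => by
    rw [Finset.abs_prod, ← Finset.prod_const]
    exact Finset.prod_le_prod (fun _ _ => hlo.le) fun l _ => (hp l).1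
  have hPup : ∀ S : Finset α, |∏ l ∈ S, p l| ≤ up ^ S.card := fun S => by
    rw [Finset.abs_prod, ← Finset.prod_const]
    exact Finset.prod_le_prod (fun _ _ => abs_nonneg _) fun l _ => (hp l).2
  let g : Finset α → ℝ := fun S => if S.card = i then ζ S / ∏ l ∈ S, p l else 0
  have hg0 : ∀ S : Finset α, S.card ≠ i → g S = 0 := fun S hS => if_neg hS
  have hup0 : ∀ S : Finset α, S.card ≠ i + 1 → upB g S = 0 := by
    intro S hS
    rw [upB]
    refine Finset.sum_eq_zero fun l hl => hg0 _ ?_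
    rw [Finset.card_erase_of_mem hl]
    have := Finset.card_pos.mpr ⟨l, hl⟩
    omega
  have hup1 : ∀ S : Finset α, S.card = i + 1 →
      upB g S = (∑ l ∈ S, p l * ζ (S.erase l)) / ∏ l ∈ S, p l := by
    intro S hS
    rw [upB, Finset.sum_div]
    refine Finset.sum_congr rfl fun l hl => ?_
    have hc : (S.erase l).card = i := by
      rw [Finset.card_erase_of_mem hl]
      omega
    have h1 : g (S.erase l) = ζ (S.erase l) / ∏ l' ∈ S.erase l, p l' := if_pos hc
    have h2 : p l * ∏ l' ∈ S.erase l, p l' = ∏ l' ∈ S, p l' := Finset.mul_prod_erase S p hl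
    rw [h1, ← h2]
    have := hp0 l
    have := hP (S.erase l)
    field_simp
  have hupb : ∀ S : Finset α, upB g S ^ 2 ≤ (C / lo ^ (i + 1)) ^ 2 := by
    intro S
    by_cases hS : S.card = i + 1
    · rw [hup1 S hS, ← sq_abs, abs_div]
      have h1 := hPlo S
      rw [hS] at h1
      have h2 : 0 < lo ^ (i + 1) := pow_pos hlo _
      refine pow_le_pow_left₀ (div_nonneg (abs_nonneg _) (abs_nonneg _)) ?_ 2
      exact div_le_div₀ hC (hζ S hS) h2 h1
    · rw [hup0 S hS, zero_pow two_ne_zero]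
      exact sq_nonneg _
  have h1 : g T ^ 2 ≤ ∑ S : Finset α, g S ^ 2 :=
    Finset.single_le_sum (fun S _ => sq_nonneg (g S)) (Finset.mem_univ T)
  have h2 := upB_lower g i hi hg0
  have h3 : ∑ S : Finset α, upB g S ^ 2 ≤ (2 : ℝ) ^ (Fintype.card α) * (C / lo ^ (i + 1)) ^ 2 := by
    have := Finset.sum_le_sum (s := (univ : Finset (Finset α))) fun S _ => hupb S
    rw [Finset.sum_const, nsmul_eq_mul, Finset.card_univ, Fintype.card_finset] at this
    push_cast at this
    exact this
  have h4 : (2 : ℝ) ^ (Fintype.card α) * (C / lo ^ (i + 1)) ^ 2 ≤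
      (2 ^ (Fintype.card α) * (C / lo ^ (i + 1))) ^ 2 := by
    have h5 : (1 : ℝ) ≤ 2 ^ (Fintype.card α) := one_le_pow₀ (by norm_num)
    have h6 : (2 : ℝ) ^ (Fintype.card α) ≤ (2 ^ (Fintype.card α)) ^ 2 := by
      nlinarith
    have h7 := mul_le_mul_of_nonneg_right h6 (sq_nonneg (C / lo ^ (i + 1)))
    calc (2 : ℝ) ^ (Fintype.card α) * (C / lo ^ (i + 1)) ^ 2
        ≤ (2 ^ (Fintype.card α)) ^ 2 * (C / lo ^ (i + 1)) ^ 2 := h7
      _ = _ := by ring
  have h5 : |g T| ≤ 2 ^ (Fintype.card α) * (C / lo ^ (i + 1)) := by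
    have h6 : 0 ≤ (2 : ℝ) ^ (Fintype.card α) * (C / lo ^ (i + 1)) := by positivity
    exact abs_le_of_sq_le_sq (le_trans h1 (le_trans h2 (le_trans h3 h4))) h6
  have h6 : ζ T = g T * ∏ l ∈ T, p l := by
    have h7 : g T = ζ T / ∏ l ∈ T, p l := if_pos hT
    rw [h7, div_mul_cancel₀ _ (hP T)]
  rw [h6, abs_mul]
  have h7 := hPup T
  rw [hT] at h7
  calc |g T| * |∏ l ∈ T, p l| ≤ (2 ^ (Fintype.card α) * (C / lo ^ (i + 1))) * up ^ i :=
        mul_le_mul h5 h7 (abs_nonneg _) (by positivity)
    _ = _ := by ring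

end Pool.Agent.Helper59.HK
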